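import Pool.Agent.helper13.UN.Spec

/-!
# Project UN (MP_cf4097_nt), block F: the approximate functional equation (AFE_stmt) and the final bound (U_stmt from P_stmt)

RULES. Row `un:XXX`: file `Pool/Agent/<seat>/UN/XXX.lean`, `import Pool.Agent.helper87.UN.SpecF` (plus library files named in the
docstring), `set_option autoImplicit false`, `namespace Pool.Agent.UN`, `theorem XXX (...) : XXX_stmt`; any other `_stmt` of `Defs`, `Spec`, `SpecF` may be added as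
a hypothesis (no circles). Auxiliary lemmas are prefixed `XXX_`. No straight double quotes, no convert / congr!. Land, note DONE + path, one line to helper87.
Paper proof: /team-store/H8_MP_cf4097_nt_helper13_v2.md, point 4, and the docstrings. `z = 1 + v I` on the line `Re z = 1`.
-/

set_option autoImplicit false

open NumberField Complex MeasureTheory

namespace Pool.Agent.UN

/-! ## Part A: the approximate functional equation -/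

/-- the quotient of the Gamma factors -/
noncomputable def GQ {n : ℕ} (t : ℝ) (μ : Fin n → ℝ) (z : ℂ) : ℂ :=
  ∏ j, (Gammaℝ (1 / 2 + z - t * I + μ j) * (Gammaℝ (1 / 2 - z + t * I + μ j))⁻¹)

/-- **FKR** (medium). The kernel. `I_x(F, u) = ∫ F(x + i v) exp(-u (x + i v)) dv`. (1) `|I_x| ≤ A S^x e^(-u x) ∫ (1+|v|)^m e^(-v²) dv` for `x = ε` and `x = 1`. (2) `I_1 = I_ε`: `Pool.Agent.helper84.DM.ct_shift` (Pool/Agent/helper91/DM/CT.lean) on the rectangle of height `V`, with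
`M = A max(1,S) e^|u| (1+V)^m e^(-V²) → 0` as `V → ∞` (`intervalIntegral_tendsto_integral`; everything continuous and integrable). So `‖I_1‖ ≤ C A mm S ε u` (`mm = min ((S e^(-u))^ε) (S e^(-u))`). (3) `I_1(F, u) - I_1(F, u') = I_1(F₂, u)`, `F₂ z = F z (1 - exp(-(u'-u) z))`,
`‖1 - exp(-ζ)‖ ≤ ‖ζ‖ e^|Re ζ|` so `‖F₂ z‖ ≤ e |u-u'| (1 + |v|) · ‖F z‖ · 2` for `|u - u'| ≤ 1`, `0 ≤ Re z ≤ 1` (`‖z‖ ≤ 1 + |v|`): (1), (2) for `F₂` with `m + 1`. -/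
def FKR_stmt : Prop := ∀ (m : ℕ) (ε : ℝ), 0 < ε → ε ≤ 1 → ∃ C : ℝ, 1 ≤ C ∧
  ∀ (F : ℂ → ℂ) (S A : ℝ), 0 < S → 0 ≤ A →
    (∀ z : ℂ, ε ≤ z.re → z.re ≤ 1 → DifferentiableAt ℂ F z) →
    (∀ z : ℂ, ε ≤ z.re → z.re ≤ 1 → ‖F z‖ ≤ A * S ^ z.re * (1 + |z.im|) ^ m * Real.exp (-(z.im) ^ 2)) →
    (∀ u : ℝ, ‖∫ v : ℝ, F (1 + v * I) * Complex.exp (-(u : ℂ) * (1 + v * I))‖ ≤ C * A * mm S ε u) ∧
    ∀ u u' : ℝ, |u - u'| ≤ 1 → ‖(∫ v : ℝ, F (1 + v * I) * Complex.exp (-(u : ℂ) * (1 + v * I))) -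
      ∫ v : ℝ, F (1 + v * I) * Complex.exp (-(u' : ℂ) * (1 + v * I))‖ ≤ C * A * mm S ε u * |u - u'|

/-- **FGM** (short-medium). The quotient of the Gamma factors. `Pool.Agent.WS.GAM` (Pool/Agent/helper98/WS/GAM.lean): for `z = x + i y`, `σ = 1/2 + x ≤ 3/2`, `w = μ + i (y - t)`: the first factor is `Γ_ℝ(σ + w)`, the second is `1/Γ_ℝ(1 - σ + conj w)`, of the same absolute value as
`1/Γ_ℝ(1 - σ + w)` (`Gammaℝ` commutes with `conj`: `Gammaℝ_def`, `Gamma_conj`, `cpow` of a positive real). So each factor is `≤ C (1 + |1/2 + w|)^x ≤ C (5/2 (1+|y|)(1+|t|))^x`. Differentiability: `Gammaℝ` is differentiable at points with positive real part (`Gammaℝ_def`, `differentiableAt_Gamma`), `1/Γ_ℝ` is entire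
(`differentiable_Gammaℝ_inv`). -/
def FGM_stmt : Prop := ∀ n : ℕ, ∃ C : ℝ, 1 ≤ C ∧ ∀ (μ : Fin n → ℝ) (t : ℝ), (∀ j, μ j = 0 ∨ μ j = 1) →
  ∀ z : ℂ, 0 < z.re → z.re ≤ 1 → DifferentiableAt ℂ (GQ t μ) z ∧
    ‖GQ t μ z‖ ≤ C * ((1 + |t|) ^ n) ^ z.re * (1 + |z.im|) ^ n

/-- **FRS** (short-medium). Residue at `0`. `Pool.Agent.helper84.DM.ct_res` (Pool/Agent/helper91/DM/CT.lean) for `a = -1`, `b = 1` and `V → ∞`: `M = B (1+V)^B e^(-V²) → 0` (`B` replaced by `|B|`; `|z.im| = V`), `intervalIntegral_tendsto_integral`, the integrands are continuous and dominated by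
`|B| (1+|v|)^|B| e^(-v²)`, which is integrable. -/
def FRS_stmt : Prop := ∀ (G : ℂ → ℂ) (B : ℝ),
  (∀ z : ℂ, -1 ≤ z.re → z.re ≤ 1 → DifferentiableAt ℂ G z ∧ ‖G z‖ ≤ B * (1 + |z.im|) ^ B * Real.exp (-(z.im) ^ 2)) →
    ‖G 0‖ ≤ ‖∫ v : ℝ, G (1 + v * I) / (1 + v * I)‖ + ‖∫ v : ℝ, G (-1 + v * I) / (-1 + v * I)‖

/-- **FSW** (short-medium). Interchange of sum and integral. Only the countable set of the `i` with `c i ≠ 0` matters (`Summable.countable_support`, as `N i ^ (-3/2) > 0`); `hasSum_integral_of_summable_integral_norm`: `‖c i N i^(-s)‖ = ‖c i‖ N i^(-3/2)` on the line, and for `N = N i ≥ 1`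
`N^(-(3/2 + (t+v) I)) = N^(-1/2) ph t (log N) exp(-(log N) (1 + v I))` (`Complex.cpow_def_of_ne_zero`, `ofReal_log`). -/
def FSW_stmt : Prop := ∀ (ι : Type) (c : ι → ℂ) (N : ι → ℝ) (t : ℝ) (k : ℝ → ℂ), (∀ i, c i ≠ 0 → 1 ≤ N i) →
  Summable (fun i => ‖c i‖ * N i ^ (-(3 / 2) : ℝ)) → Integrable k →
    ∫ v : ℝ, (∑' i, c i * (N i : ℂ) ^ (-(1 / 2 + t * I + (1 + v * I)))) * k v =
      ∑' i, c i * ((N i ^ (-(1 / 2) : ℝ) : ℝ) : ℂ) * ph t (Real.log (N i)) *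
        ∫ v : ℝ, k v * Complex.exp (-(Real.log (N i) : ℂ) * (1 + v * I))

/-- **FFE** (short). The functional equation at `s = 1/2 + i t - conj z`: `1 - s + μ` has real part `> 0`, so `Gammaℝ (1 - s + μ) ≠ 0` (`Gammaℝ_ne_zero_of_re_pos`), multiply by the product; `1 - conj s = 1/2 + i t + z`; `q^((1-2s)/2) = q^(conj z - i t) = conj (q^(z + i t))`;
`Γ_ℝ(1/2 - it + conj z + μ)/Γ_ℝ(1/2 + it - conj z + μ) = conj (GQ (-t) μ z factor)`. -/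
def FFE_stmt : Prop := ∀ (n : ℕ) (L : ℂ → ℂ) (q : ℝ) (μ : Fin n → ℝ) (w : ℂ), 1 ≤ q → (∀ j, μ j = 0 ∨ μ j = 1) →
  (∀ s : ℂ, (q : ℂ) ^ (s / 2) * L s * ∏ j, (Gammaℝ (1 - s + μ j))⁻¹ =
    w * ((q : ℂ) ^ ((1 - s) / 2) * (starRingEnd ℂ) (L (1 - (starRingEnd ℂ) s)) * ∏ j, (Gammaℝ (s + μ j))⁻¹)) →
  ∀ (t : ℝ) (z : ℂ), 0 < z.re → z.re ≤ 1 →
    L (1 / 2 + t * I - (starRingEnd ℂ) z) =
      w * (starRingEnd ℂ) ((q : ℂ) ^ (z + t * I) * L (1 / 2 + t * I + z) * GQ (-t) μ z)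

/-- **AFE** (medium): the theorem is `theorem AFE (hFKR : FKR_stmt) (hFGM : FGM_stmt) (hFRS : FRS_stmt) (hFSW : FSW_stmt) (hFFE : FFE_stmt) : AFE_stmt`. `s₀ = 1/2 + i t`, `S = √(q (1+|t|)^n)` (`≥ 1`), `z = 1 + v I`. FRS for `G z = L(s₀ + z) S^z e^(z²)`
(`‖L‖ ≤ B (1+|t+y|)^B ≤ |B| (1+|t|)^|B| (1+|y|)^|B|` for `|Re| ≤ 3/2`, `S^x ≤ S`, `|e^(z²)| = e^(x² - y²)`; enlarge `B`). First integral: `L(s₀ + z) = ∑' c N^(-(s₀ + z))`, FSW with `k v = F₁(1 + v I)`, `F₁ z = S^z e^(z²)/z`: `V true u = ∫ F₁(z) exp(-u z)`, FKR with `m = 0`, `A = e/ε`.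
Second integral: `-1 + v I = -conj z`; by FFE `G(-conj z)/(-conj z) = -w conj (q^(it) L(s₀ + z) F₂(z))`, `F₂ z = q^z GQ (-t) μ z S^(-z) e^(z²)/z`; `|q^z S^(-z)| |GQ| ≤ C q^x S^(-x) ((1+|t|)^n)^x (1+|y|)^n = C S^x (1+|y|)^n` as `q (1+|t|)^n = S²`; the norm of the integral is
`‖∫ L(s₀ + z) F₂(z) dv‖` (`integral_conj`; `‖w‖ = 1`, `‖q^(it)‖ = 1`): FSW with `k v = F₂(1 + v I)`, `V false u = ∫ F₂(z) exp(-u z)`, FKR with `m = n`. -/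
theorem AFE_doc : True := trivial

/-! ## Part B: the bound of `L` -/

/-- **FSM** (short-medium; from IDN_stmt with `ε = 1/4`; FIN0, PRO). For a finite set `T` of nonzero ideals `∑_{a ∈ T} N(a)^(-3/2) ≤ ∑_j 2^(-3j/2) #{N(a) < 2^(j+1)} ≤ ∑_j 2^(-3j/2) C 2^(5(j+1)/4) < ∞` (`summable_of_sum_le`). The term `a = ⊥` is `0`. (Or: `∑_a N(a)^(-3/2) = ∑_m #{N(a) = m} m^(-3/2)` with IDM.) -/
def FSM_stmt : Prop := ∀ (K : Type) [Field K] [NumberField K] (χ : Ideal (𝓞 K) → ℂ), (∀ a, ‖χ a‖ ≤ 1) → χ ⊥ = 0 →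
  (∀ a, χ a ≠ 0 → 1 ≤ Nm a) ∧ Summable (fun a : Ideal (𝓞 K) => ‖χ a‖ * Nm a ^ (-(3 / 2) : ℝ))

/-- the size of the piece `j` -/
noncomputable def Aj (S ε : ℝ) (j : ℕ) : ℝ := Real.exp (-(j / 2 : ℝ)) * mm S ε j

/-- **FDY** (medium; pure). Smooth decomposition. `u_i = log N_i ≥ 0` if `c i ≠ 0`. `∑_{j ≥ 0} tent(u - j) = 1` for `u ≥ 0` (two terms). The terms `τ_i = c_i N_i^(-1/2) ph t u_i V(u_i)` are absolutely summable: `‖V u‖ ≤ C₀ S e^(-u)`, so `‖τ_i‖ ≤ C₀ S ‖c_i‖ N_i^(-3/2)`. The double family `τ_i tent(u_i - j)` is summable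
(nonnegative weights with sum `1`), `Summable.tsum_comm`: `∑' i τ_i = ∑' j ∑' i τ_i tent(u_i - j)`; for fixed `j` only the `i` with `N_i ≤ e^(j+1)` matter: a finite sum. `N_i^(-1/2) V(u_i) tent(u_i - j) = (C₁ C₀ Aj S ε j) W_j(u_i - j)` with
`W_j(s) = e^(-(j+s)/2) V(j+s) tent(s)/(C₁ C₀ Aj)`; `mm S ε (j+s) ≤ e^|s| mm S ε j`; `VV W_j` for `C₁ = 100`: supported in `[-1,1]`, `‖W_j‖ ≤ 1/2`, Lipschitz with constant `1` (product of three functions; if `|s - s'| > 1` use `‖W_j‖ ≤ 1/2`; if `|s|, |s'| > 1` both are `0`; if `|s| > 1 ≥ |s'|`, `|s - s'| ≤ 1`: `tent(s) = 0`,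
`|tent(s')| ≤ |s - s'|`). If `mm = 0`.. it is positive (`S > 0`). Then `‖∑' i τ_i‖ ≤ ∑' j C₁ C₀ Aj M_j`. -/
def FDY_stmt : Prop := ∃ C₁ : ℝ, 1 ≤ C₁ ∧ ∀ (ι : Type) (c : ι → ℂ) (N : ι → ℝ) (t S ε C₀ : ℝ) (V : ℝ → ℂ) (M : ℕ → ℝ),
  (∀ i, c i ≠ 0 → 1 ≤ N i) → (∀ z : ℝ, {i | c i ≠ 0 ∧ N i ≤ z}.Finite) → Summable (fun i => ‖c i‖ * N i ^ (-(3 / 2) : ℝ)) →
  0 < S → 0 < ε → ε ≤ 1 → 1 ≤ C₀ → (∀ u, ‖V u‖ ≤ C₀ * mm S ε u) →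
  (∀ u u', |u - u'| ≤ 1 → ‖V u - V u'‖ ≤ C₀ * mm S ε u * |u - u'|) →
  (∀ (j : ℕ) (W : ℝ → ℂ), VV W → ‖∑ᶠ i, c i * ph t (Real.log (N i)) * W (Real.log (N i) - j)‖ ≤ M j) →
  Summable (fun j : ℕ => Aj S ε j * M j) →
    ‖∑' i, c i * ((N i ^ (-(1 / 2) : ℝ) : ℝ) : ℂ) * ph t (Real.log (N i)) * V (Real.log (N i))‖ ≤
      C₁ * C₀ * ∑' j : ℕ, Aj S ε j * M j

/-- the bound for the piece `j`: trivial below `S Q^(-d)`, with the saving `Q^(-d)` above -/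
noncomputable def Mj (S Q d ε : ℝ) (j : ℕ) : ℝ :=
  if Real.exp j < S * Q ^ (-d) then Real.exp j ^ (1 + ε) else Real.exp j ^ (1 + ε) * Q ^ (-d)

/-- **FGS** (medium; pure). Geometric sums. `x = e^j`. `Aj ≤ x^(-1/2) (S/x)^(1/4)` and `Aj ≤ x^(-1/2) S/x`, `S ≥ 1`, `Q ≥ 1`. Pieces with `x < S Q^(-d)`: `∑ x^(1/2 + ε - 1/4) S^(1/4) ≤ C (S Q^(-d))^(1/4 + ε) S^(1/4) ≤ C S^(1/2+ε) Q^(-d/4)`. Pieces with `x ≤ S`: `∑ S^(1/4) x^(1/4+ε) Q^(-d) ≤ C S^(1/2+ε) Q^(-d)`.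
Pieces with `x > S`: `∑ S x^(-1/2+ε) Q^(-d) ≤ C S^(1/2+ε) Q^(-d)`. (`∑_{e^j ≤ Z} e^(jα) ≤ Z^α/(1 - e^(-α))`, `∑_{e^j > Z} e^(-jβ) ≤ Z^(-β)/(1 - e^(-β))`; or compare each of the three pieces with `Z^α e^(-α (i - j))`.) Summable because of the last estimate. -/
def FGS_stmt : Prop := ∀ ε : ℝ, 0 < ε → ε ≤ 1 / 8 → ∃ C : ℝ, 1 ≤ C ∧ ∀ S Q d : ℝ, 1 ≤ S → 1 ≤ Q → 0 < d →
  Summable (fun j : ℕ => Aj S (1 / 4) j * Mj S Q d ε j) ∧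
  ∑' j : ℕ, Aj S (1 / 4) j * Mj S Q d ε j ≤ C * S ^ (1 / 2 + ε) * Q ^ (-(d / 4))

/-- **UF** (medium): the theorem is `theorem UF (hP : P_stmt) (hAFE : AFE_stmt) (hTRI : TRI_stmt) (hPRO : PRO_stmt) (hFIN0 : FIN0_stmt) (hFSM : FSM_stmt) (hFDY : FDY_stmt) (hFGS : FGS_stmt) : U_stmt`. `d` from P, `δ = d/4`; `ε' = min (2ε) (1/8)`. `D = Dc K ≥ 1`, `Q = QQ f t ≥ 1`, `q = D N(f) ≥ 1`,
`S = √(q (1+|t|)^n) = √(D Q) ≥ 1` (`finrank = n`: `subst`). AFE for `ε = 1/4`, `c = χ`, `N = Nm`, `μ` from `HL.fe` (FSM; `‖χ a‖ ≤ 1`: `HChar.unit`, `.zero`, `.bot`). FDY for `V true` and `V false`; `M j = C Mj S Q d ε' j`: the sum `∑ᶠ a, χ a ph t (log N a) W (log N a - j)` is `SS χ t (e^j) W` (`log e^j = j`);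
P if `e^j ≥ D^(1/2) Q^(1/2 - d) = S Q^(-d)`, TRI otherwise. FGS: `‖L‖ ≤ C S^(1/2+ε') Q^(-d/4)`, `S = (D Q)^(1/2)`, so `S^(1/2+ε') ≤ (D Q)^(1/4+ε)`. -/
theorem UF_doc : True := trivial

end Pool.Agent.UN
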