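import Pool.Agent.helper13.UN.Defs4
import Pool.Agent.helper87.UN.SpecF

/-!
# Project UN (MP_cf4097_nt), block H, part L: from the Mellin transform (MEL_stmt) to the L-function (HLE_stmt)

RULES. Row `unh:XXX`: file `Pool/Agent/<seat>/UNH/XXX.lean`, `import Pool.Agent.helper87.UN.SpecL` (plus library files named in the
docstring), `set_option autoImplicit false`, `namespace Pool.Agent.UN`, `open NumberField Complex`, `theorem XXX (...) : XXX_stmt`; any other `_stmt` of the UN files may be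
added as a hypothesis (no circles). Auxiliary lemmas are prefixed `XXX_`. No straight double quotes, no convert / congr!. Land, note DONE + path, one line to helper87.
-/

set_option autoImplicit false

open NumberField Complex

namespace Pool.Agent.UN

/-- **LMM** (short-medium). The Mellin transform. Decay at `0`: for `0 < x ≤ 1`, `h x = h (1/(1/x)) = ε (1/x)^k conj (h (1/x))`, so `h = O(x^r)` at `0` (`nhdsWithin 0 (Ioi 0)`) for every `r` (compose the bound at infinity with `x ↦ 1/x`). `h` is locally integrable on `Ioi 0` (continuous). So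
`mellinConvergent_of_isBigO_rpow`, `mellin_differentiableAt_of_isBigO_rpow` for all `z`. Functional equation: `mellin_comp_inv` (`mellin (fun x => h x⁻¹) z = mellin h (-z)`) with `h (x⁻¹) = ε x^k conj (h x)` on `Ioi 0`: `mellin h z = ∫ x^(-z-1) h(1/x) = ε ∫ x^(k-z-1) conj (h x) = ε conj (∫ x^((k - conj z) - 1) h x)`
(`integral_conj`, `conj (x^w) = x^(conj w)` for `x > 0`; `mellin` is `∫ t in Ioi 0, t^(s-1) • f t`). Bound: `‖x^(z-1)‖ = x^(Re z - 1) ≤ x^(A-1) + x^(-A-1)`, both integrable against `‖h‖`. (Compare `Pool/Agent/*/FL/ZLA.lean`: same proof with `ε = 1`, `k = 1`, real `theta`; or Mathlib `StrongFEPair`.) -/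
def LMM_stmt : Prop := ∀ (h : ℝ → ℂ) (k : ℝ) (ε : ℂ), 0 < k → ‖ε‖ = 1 → ContinuousOn h (Set.Ioi 0) →
  (∀ r : ℝ, h =O[Filter.atTop] (fun x : ℝ => x ^ r)) →
  (∀ x : ℝ, 0 < x → h (1 / x) = ε * ((x ^ k : ℝ) : ℂ) * (starRingEnd ℂ) (h x)) →
  Differentiable ℂ (mellin h) ∧ (∀ z : ℂ, mellin h z = ε * (starRingEnd ℂ) (mellin h (k - (starRingEnd ℂ) z))) ∧
  ∀ A : ℝ, ∃ M : ℝ, ∀ z : ℂ, |z.re| ≤ A → ‖mellin h z‖ ≤ M

/-- **LGP** (short-medium). The Gamma factors. `C = 2^(number of complex places)`, `e' σ = e (mk σ)` if `σ = (mk σ).embedding`, `1` otherwise. Group the product over the fibres of `InfinitePlace.mk` (`Finset.prod_fiberwise`): real place: one embedding, `z = s + τ I + e`, `Γ_ℝ(z) = π^(-z/2) Γ(z/2)` (`Gammaℝ_def`), `z/2 = ex + s/2`.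
Complex place: the two embeddings `w.embedding`, `conjugate w.embedding` (`InfinitePlace.mk_eq_iff`, `InfinitePlace.isComplex_iff`), `z = s + τ I + |m|/2 = ex + s`, `Γ_ℝ(z) Γ_ℝ(z+1) = Γ_ℂ(z) = 2 (2π)^(-z) Γ(z)` (`Complex.Gammaℝ_mul_Gammaℝ_add_one`, `Gammaℂ_def`). -/
def LGP_stmt : Prop := ∀ (K : Type) [Field K] [NumberField K] (τ : InfinitePlace K → ℝ) (m : InfinitePlace K → ℤ)
  (e : InfinitePlace K → ℕ), (∀ w, w.IsReal → m w = 0) → (∀ w, e w ≤ 1) → (∀ w, w.IsComplex → e w = 0) →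
  ∃ (e' : (K →+* ℂ) → ℝ) (C : ℝ), 0 < C ∧ (∀ σ, e' σ = 0 ∨ e' σ = 1) ∧
    ∀ s : ℂ, ∏ σ : K →+* ℂ, Gammaℝ (s + τ (InfinitePlace.mk σ) * I + |(m (InfinitePlace.mk σ) : ℝ)| / 2 + e' σ) =
      C * gf τ (aa m e) s

/-- **LPG** (medium; adaptation of `Pool.Agent.FL.ZPL`, Pool/Agent/helper67/FL/ZPL.lean, with `Pool.Agent.FL.ZGI` (Pool/Agent/helper39/FL/ZGI.lean), `Pool.Agent.FL.ZGR` (Pool/Agent/*/FL/ZGR.lean), which may be imported). Polynomial growth. `A` given, `N` a natural number `≥ |A| + 2`. Right line `Re s = N`: `‖L s‖ ≤ C`. Left line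
`s = -(N-1/2) + i t`: by the functional equation `‖L s‖ = q^(1/2 - Re s) ‖L (1 - conj s)‖ ∏ ‖Γ_ℝ(1-s+conj μ_i)‖ ‖(Γ_ℝ(s+μ_i))⁻¹‖` (`Γ_ℝ(1-s+conj μ_i) ≠ 0`, real part positive), `conj (1 - s + conj μ_i) = 1 - conj s + μ_i = s + μ_i + 2N`, so ZGR gives `≤ C (1+|t|)^(N n)`.
Inside the strip `‖L s‖ ≤ C e^(C |Im s|)` (second hypothesis and ZGI at `s + μ_i`). `PhragmenLindelof.vertical_strip` for `L s / (s - 2N - 1)^(N n)`. -/
def LPG_stmt : Prop := ∀ (ι : Type) [Fintype ι] (μ : ι → ℂ) (L : ℂ → ℂ) (q : ℝ) (c : ℂ), 0 < q →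
  (∀ i, 0 ≤ (μ i).re) → ‖c‖ = 1 → Differentiable ℂ L →
  (∀ s : ℂ, (q : ℂ) ^ (s / 2) * L s * ∏ i, (Gammaℝ (1 - s + (starRingEnd ℂ) (μ i)))⁻¹ =
    c * ((q : ℂ) ^ ((1 - s) / 2) * (starRingEnd ℂ) (L (1 - (starRingEnd ℂ) s)) * ∏ i, (Gammaℝ (s + μ i))⁻¹)) →
  (∀ A : ℝ, ∃ C : ℝ, ∀ s : ℂ, |s.re| ≤ A → ‖L s‖ ≤ C * ∏ i, ‖(Gammaℝ (s + μ i))⁻¹‖) →
  (∃ C : ℝ, ∀ s : ℂ, 2 ≤ s.re → ‖L s‖ ≤ C) →
  ∀ A : ℝ, ∃ B : ℝ, ∀ s : ℂ, |s.re| ≤ A → ‖L s‖ ≤ B * (1 + |s.im|) ^ B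

/-- **LDS** (short). uses: FSM (helper54/UN/FSM.lean). `‖χ a N(a)^(-s)‖ ≤ ‖χ a‖ N(a)^(-3/2)` if `χ a ≠ 0` (then `N(a) ≥ 1`), both are `0` otherwise; `tsum_of_norm_bounded`. -/
def LDS_stmt : Prop := ∀ (K : Type) [Field K] [NumberField K] (χ : Ideal (𝓞 K) → ℂ), (∀ a, ‖χ a‖ ≤ 1) → χ ⊥ = 0 →
  ∃ C : ℝ, ∀ s : ℂ, 2 ≤ s.re → ‖∑' a : Ideal (𝓞 K), χ a * (Nm a : ℂ) ^ (-s)‖ ≤ C

/-- **HLE** (medium; helper87): the theorem is `theorem HLE (hMEL : MEL_stmt) (hLMM : LMM_stmt) (hLGP : LGP_stmt) (hLPG : LPG_stmt) (hLDS : LDS_stmt) : HLE_stmt`. `L s = C mellin h (n s/2) / (κ (D N f)^(s/2)) ∏_σ (Γ_ℝ(s + μ_σ))⁻¹`. -/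
theorem HLE_doc : True := trivial

end Pool.Agent.UN
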